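import Pool.Agent.N510.AP.Jet
import Pool.Agent.N77.PA.Tree

/-!
# The amalgams
-/

set_option autoImplicit false

open MvPolynomial

namespace Pool.Agent.N510.AP

open Pool.Agent.N77.PA
open Pool.Agent.H922R2
open Pool.Agent.N77.GL (G2 mG ext_comm amg_of_alt alt_map sub_amg)
open Pool.Agent.Y110.FJ
open Pool.Agent.Y417.FJ (Alt)

section field

variable {k : Type} [Field k]

/-- the linear group -/
noncomputable def A1 (k : Type) [Field k] : Subgroup (GA k) := AG k ⊓ Zo (Fin 2) k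

/-- the triangular group -/
noncomputable def E1 (k : Type) [Field k] : Subgroup (GA k) := EG k ⊓ Zo (Fin 2) k

theorem td_uy (P : Polynomial k) : (uy P : MvPolynomial (Fin 2) k).totalDegree = P.natDegree := by
  have h := td_aeval (k := k) (v := X 1) (m := 1) (totalDegree_X 1) one_pos P
  rw [mul_one] at h
  exact h

theorem td_sub_le {p q : MvPolynomial (Fin 2) k} {n : ℕ} (hp : p.totalDegree ≤ n)
    (hq : q.totalDegree ≤ n) : (p - q).totalDegree ≤ n :=
  (totalDegree_sub _ _).trans (max_le hp hq)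

theorem td_add_le {p q : MvPolynomial (Fin 2) k} {n : ℕ} (hp : p.totalDegree ≤ n)
    (hq : q.totalDegree ≤ n) : (p + q).totalDegree ≤ n :=
  (totalDegree_add _ _).trans (max_le hp hq)

theorem td_C_mul_le {p : MvPolynomial (Fin 2) k} {n : ℕ} (c : k) (hp : p.totalDegree ≤ n) :
    (C c * p).totalDegree ≤ n := by
  refine (totalDegree_mul _ _).trans ?_
  rw [totalDegree_C, zero_add]
  exact hp

/-- bounded triangular automorphisms have a bounded polynomial -/
theorem forms_deg [CharZero k] {e : GA k} (he : e ∈ EG k) {n : ℕ} (hn : 1 ≤ n)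
    (hd : (e (X 0)).totalDegree ≤ n) :
    ∃ (a b c : k) (P : Polynomial k), a ≠ 0 ∧ b ≠ 0 ∧ e (X 0) = C a * X 0 + uy P ∧
      e (X 1) = C b * X 1 + C c ∧ P.natDegree ≤ n := by
  obtain ⟨a, b, c, P, ha, hb, h0, h1⟩ := EG_forms he
  refine ⟨a, b, c, P, ha, hb, h0, h1, ?_⟩
  rw [← td_uy P]
  have h2 : uy P = e (X 0) - C a * X 0 := by rw [h0]; ring
  rw [h2]
  refine td_sub_le hd (td_C_mul_le _ ?_)
  rw [totalDegree_X]
  exact hn

theorem td_lin1 (b c : k) : (C b * X 1 + C c : MvPolynomial (Fin 2) k).totalDegree ≤ 1 := by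
  refine td_add_le (td_C_mul_le _ ?_) ?_
  · rw [totalDegree_X]
  · rw [totalDegree_C]; exact Nat.zero_le _

/-- triangular automorphisms of bounded degree -/
noncomputable def Bm (k : Type) [Field k] [CharZero k] (m : ℕ) : Subgroup (GA k) where
  carrier := {e | e ∈ E1 k ∧ (e (X 0)).totalDegree ≤ m + 1}
  mul_mem' := by
    rintro a b ⟨ha, hda⟩ ⟨hb, hdb⟩
    refine ⟨mul_mem ha hb, ?_⟩
    obtain ⟨_, s, r, _, _, _, _, ha1, _⟩ := forms_deg ha.1 (by omega) hda
    obtain ⟨β, _, _, P, _, _, hb0, _, hP⟩ := forms_deg hb.1 (by omega) hdb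
    have h1 : (a * b) (X 0) = C β * a (X 0) + Polynomial.aeval (C s * X 1 + C r) P := by
      rw [AlgEquiv.mul_apply, hb0, map_add, map_mul, ga_C', ← ha1]
      congr 1
      exact (Polynomial.aeval_algHom_apply a.toAlgHom (X 1) P).symm
    rw [h1]
    refine td_add_le (td_C_mul_le _ hda) ?_
    refine (td_aeval_le (td_lin1 s r) P).trans ?_
    rw [mul_one]; exact hP
  one_mem' := ⟨one_mem _, by
    show (X 0 : MvPolynomial (Fin 2) k).totalDegree ≤ m + 1
    rw [totalDegree_X]; omega⟩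
  inv_mem' := by
    rintro a ⟨ha, hda⟩
    refine ⟨inv_mem ha, ?_⟩
    obtain ⟨α, _, _, P, hα, _, ha0, _, hP⟩ := forms_deg ha.1 (by omega) hda
    obtain ⟨_, s, r, _, _, _, _, hi1⟩ := EG_forms (inv_mem ha.1)
    have h0 : a⁻¹ (a (X 0)) = X 0 := a.symm_apply_apply _
    rw [ha0, map_add, map_mul, ga_C'] at h0
    have h1 : a⁻¹ (uy P) = Polynomial.aeval (C s * X 1 + C r) P := by
      rw [← hi1]
      exact (Polynomial.aeval_algHom_apply a⁻¹.toAlgHom (X 1) P).symm
    rw [h1] at h0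
    have h2 : C α * a⁻¹ (X 0) = X 0 - Polynomial.aeval (C s * X 1 + C r) P :=
      eq_sub_of_add_eq h0
    have h3 : (C α * a⁻¹ (X 0)).totalDegree = (a⁻¹ (X 0)).totalDegree := td_C_mul hα
    rw [← h3, h2]
    refine td_sub_le ?_ ?_
    · rw [totalDegree_X]; omega
    · refine (td_aeval_le (td_lin1 s r) P).trans ?_
      rw [mul_one]; exact hP

theorem mem_Bm [CharZero k] {m : ℕ} {e : GA k} :
    e ∈ Bm k m ↔ e ∈ E1 k ∧ (e (X 0)).totalDegree ≤ m + 1 := Iff.rfl

theorem Bm_mono [CharZero k] {m n : ℕ} (h : m ≤ n) : Bm k m ≤ Bm k n :=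
  fun _ he => ⟨he.1, he.2.trans (by omega)⟩

theorem Bm_le [CharZero k] (m : ℕ) : Bm k m ≤ E1 k := fun _ he => he.1

theorem td_A1 {a : GA k} (ha : a ∈ AG k) (i : Fin 2) : (a (X i)).totalDegree ≤ 1 := by
  have h1 := td_mul_AG_le (1 : GA k) ha i
  rw [one_mul] at h1
  refine h1.trans ?_
  show max (X 0 : MvPolynomial (Fin 2) k).totalDegree (X 1 : MvPolynomial (Fin 2) k).totalDegree ≤ 1
  rw [totalDegree_X, totalDegree_X, max_self]

theorem td_Bm [CharZero k] {m : ℕ} {e : GA k} (he : e ∈ Bm k m) (i : Fin 2) :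
    (e (X i)).totalDegree ≤ m + 1 := by
  fin_cases i
  · exact he.2
  · obtain ⟨_, b, c, _, _, _, _, h1⟩ := EG_forms he.1.1
    show (e (X 1)).totalDegree ≤ m + 1
    rw [h1]
    exact (td_lin1 b c).trans (by omega)

theorem alt_grow [CharZero k] (m : ℕ) (h : GA k)
    (hh : Alt (A1 k) (Bm k m) (A1 k ⊓ Bm k m) h) :
    ∀ g : GA k, dA g ≤ dE g → dA g < dA (g * h) := by
  have hb' : ∀ b ∈ Bm k m, b ∉ A1 k ⊓ Bm k m → b ∉ AG k := by
    intro b hb hbK hbA
    exact hbK ⟨⟨hbA, hb.1.2⟩, hb⟩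
  have ha' : ∀ a ∈ A1 k, a ∉ A1 k ⊓ Bm k m → a ∉ EG k := by
    intro a ha haK haE
    exact haK ⟨ha, ⟨haE, ha.2⟩, (td_A1 ha.1 0).trans (by omega)⟩
  have hstep : ∀ g b : GA k, b ∈ Bm k m → b ∉ A1 k ⊓ Bm k m → dA g ≤ dE g →
      dE g < dA (g * b) := by
    intro g b hb hbK hg
    by_contra hcon
    exact hb' b hb hbK (uniq_plane hb.1.1 hg (not_lt.1 hcon))
  induction hh with
  | base b a hb hbK ha =>
    intro g hg
    rw [← mul_assoc, dA_mul (g * b) ha.1]
    exact lt_of_le_of_lt hg (hstep g b hb hbK hg)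
  | step b a g' hb hbK ha haK hg' ih =>
    intro g hg
    have h1 := hstep g b hb hbK hg
    have h2 : dA (g * b * a) ≤ dE (g * b * a) := by
      rw [dA_mul (g * b) ha.1]
      by_contra hcon
      refine ha' a ha haK (uniq_line ha.1 ?_ (not_le.1 hcon))
      rw [dE_mul g hb.1.1]
      exact h1
    have h3 := ih (g * b * a) h2
    have h4 : g * (b * a * g') = g * b * a * g' := by group
    rw [h4]
    rw [dA_mul (g * b) ha.1] at h3
    omega

theorem alt_not [CharZero k] (m : ℕ) (h : GA k)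
    (hh : Alt (A1 k) (Bm k m) (A1 k ⊓ Bm k m) h) : h ∉ A1 k := by
  intro hA
  have h1 := alt_grow m h hh 1 (by
    show max (X 0 : MvPolynomial (Fin 2) k).totalDegree (X 1 : MvPolynomial (Fin 2) k).totalDegree ≤
      (X 1 : MvPolynomial (Fin 2) k).totalDegree
    rw [totalDegree_X, totalDegree_X, max_self])
  rw [dA_mul 1 hA.1] at h1
  exact lt_irrefl _ h1

/-- the amalgam -/
noncomputable def Gm (k : Type) [Field k] [CharZero k] (m : ℕ) : Subgroup (GA k) := A1 k ⊔ Bm k m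

theorem Gm_mono [CharZero k] : Monotone (Gm k) := fun _ _ h => sup_le_sup_left (Bm_mono h) _

theorem Gm_le [CharZero k] (m : ℕ) : Gm k m ≤ Zo (Fin 2) k :=
  sup_le inf_le_right ((Bm_le m).trans inf_le_right)

/-- translations -/
noncomputable def tr (c : Fin 2 → k) : GA k :=
  mkGA (X 0 + C (c 0)) (X 1 + C (c 1)) (X 0 - C (c 0)) (X 1 - C (c 1))
    (by simp) (by simp) (by simp) (by simp)

theorem tr_X (c : Fin 2 → k) (i : Fin 2) : tr c (X i) = X i + C (c i) := by
  show aeval ![X 0 + C (c 0), X 1 + C (c 1)] (X i) = _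
  rw [aeval_X]
  fin_cases i <;> rfl

theorem tr_mem_AG (c : Fin 2 → k) : tr c ∈ AG k := by
  apply mem_AG_of
  · rw [tr_X, mem_Wsub]
    exact ⟨1, 0, c 0, by simp⟩
  · rw [tr_X, mem_Wsub]
    exact ⟨0, 1, c 1, by simp⟩

theorem tr_mem_EG (c : Fin 2 → k) : tr c ∈ EG k := by
  refine mem_EG_of (b := 1) (c := c 1) one_ne_zero ?_
  rw [tr_X, C_1, one_mul]

theorem ex_tr (g : GA k) : ∃ t, t ∈ AG k ∧ t ∈ EG k ∧ g * t⁻¹ ∈ Zo (Fin 2) k := by
  obtain ⟨c, hc⟩ : ∃ c : Fin 2 → k, c = fun i => - constantCoeff (g (X i)) := ⟨_, rfl⟩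
  have h1 : (tr c)⁻¹ ∈ AG k := (AG k).inv_mem (tr_mem_AG c)
  have h2 : (tr c)⁻¹ ∈ EG k := (EG k).inv_mem (tr_mem_EG c)
  refine ⟨(tr c)⁻¹, h1, h2, ?_⟩
  rw [inv_inv]
  apply mem_Zo_of_X
  intro i
  have h3 : (g * tr c) (X i) = g (tr c (X i)) := rfl
  rw [h3, tr_X, map_add, ga_C', map_add, constantCoeff_C, hc]
  exact add_neg_cancel _

/-- the group generated by the linear and the triangular automorphisms -/
theorem cover [CharZero k] [IsAlgClosed k] (g : GA k) (hg : g ∈ Zo (Fin 2) k) : ∃ m, g ∈ Gm k m := by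
  have hmul : ∀ x y : GA k, (∃ m, x ∈ Gm k m) → (∃ m, y ∈ Gm k m) → ∃ m, x * y ∈ Gm k m := by
    rintro x y ⟨m, hm⟩ ⟨n, hn⟩
    exact ⟨max m n, mul_mem (Gm_mono (le_max_left _ _) hm) (Gm_mono (le_max_right _ _) hn)⟩
  have hA : ∀ x ∈ A1 k, ∃ m, x ∈ Gm k m := fun x hx => ⟨0, Subgroup.mem_sup_left hx⟩
  have hE : ∀ x ∈ E1 k, ∃ m, x ∈ Gm k m := fun x hx =>
    ⟨(x (X 0)).totalDegree, Subgroup.mem_sup_right ⟨hx, Nat.le_succ _⟩⟩
  have hstep : ∀ x y : GA k, (y ∈ AG k ∨ y ∈ EG k) →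
      (∃ h t, (∃ m, h ∈ Gm k m) ∧ t ∈ AG k ∧ t ∈ EG k ∧ x = h * t) →
      ∃ h t, (∃ m, h ∈ Gm k m) ∧ t ∈ AG k ∧ t ∈ EG k ∧ x * y = h * t := by
    rintro x y hy ⟨h, t, hh, htA, htE, rfl⟩
    obtain ⟨s, hsA, hsE, hs⟩ := ex_tr (t * y)
    refine ⟨h * (t * y * s⁻¹), s, hmul _ _ hh ?_, hsA, hsE, by group⟩
    rcases hy with hy | hy
    · have h1 : t * y * s⁻¹ ∈ AG k := (AG k).mul_mem ((AG k).mul_mem htA hy) ((AG k).inv_mem hsA)
      exact hA _ ⟨h1, hs⟩
    · have h1 : t * y * s⁻¹ ∈ EG k := (EG k).mul_mem ((EG k).mul_mem htE hy) ((EG k).inv_mem hsE)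
      exact hE _ ⟨h1, hs⟩
  have key : ∃ h t, (∃ m, h ∈ Gm k m) ∧ t ∈ AG k ∧ t ∈ EG k ∧ g = h * t := by
    clear hg
    have hg : g ∈ Subgroup.closure ((AG k : Set (GA k)) ∪ (EG k : Set (GA k))) := by
      rw [Subgroup.closure_union, Subgroup.closure_eq, Subgroup.closure_eq]
      have := jvdk (k := k)
      unfold TG at this
      rw [this]
      exact Subgroup.mem_top g
    induction hg using Subgroup.closure_induction_right with
    | one => exact ⟨1, 1, ⟨0, (Gm k 0).one_mem⟩, (AG k).one_mem, (EG k).one_mem, (one_mul 1).symm⟩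
    | mul_right x hx y hy ih => exact hstep x y hy ih
    | mul_inv_cancel x hx y hy ih =>
      exact hstep x y⁻¹ (hy.imp (fun h => (AG k).inv_mem h) (fun h => (EG k).inv_mem h)) ih
  obtain ⟨h, t, ⟨m, hm⟩, htA, htE, rfl⟩ := key
  have h2 : t ∈ Zo (Fin 2) k := by
    have h1 : t = h⁻¹ * (h * t) := by group
    rw [h1]
    exact (Zo (Fin 2) k).mul_mem ((Zo (Fin 2) k).inv_mem (Gm_le m hm)) hg
  exact hmul _ _ ⟨m, hm⟩ (hA _ ⟨htA, h2⟩)

theorem eq_zero_of {f : MvPolynomial (Fin 2) k} {n : ℕ} (h1 : f.totalDegree ≤ n)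
    (h2 : f ∈ idealOfVars (Fin 2) k ^ (n + 1)) : f = 0 := by
  rw [mem_pow_idealOfVars_iff'] at h2
  ext x
  rw [coeff_zero]
  by_cases hx : Finsupp.degree x < n + 1
  · exact h2 x hx
  · apply coeff_eq_zero_of_totalDegree_lt
    rw [← Finsupp.degree_apply]
    omega

/-- the amalgams are in the class -/
theorem amal {C : ∀ (G : Type) [Group G], Prop} (hC : ClosedE C)
    (hsol : ∀ (S : Type) [Group S], Group.IsSolvable S → C S) [CharZero k]
    {R : Type} [CommRing R] (φ : R →+* k) (hφ : Function.Injective φ) (h : C (G2 R)) (m : ℕ) :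
    C ((Gm k m).comap ((Zo (Fin 2) k).subtype.comp (bz φ))) := by
  have hperm : S_PERM := Pool.Agent.Y961.FJ.t_perm Pool.Agent.Y529.FJ.t_ext
  let A0 : Subgroup (Gm k m) := (A1 k).subgroupOf (Gm k m)
  let B0 : Subgroup (Gm k m) := (Bm k m).subgroupOf (Gm k m)
  let K0 : Subgroup (Gm k m) := (A1 k ⊓ Bm k m).subgroupOf (Gm k m)
  have hgen : A0 ⊔ B0 = ⊤ := by
    have h1 : A0.map (Gm k m).subtype = A1 k :=
      Subgroup.map_subgroupOf_eq_of_le (show A1 k ≤ Gm k m from le_sup_left)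
    have h2 : B0.map (Gm k m).subtype = Bm k m :=
      Subgroup.map_subgroupOf_eq_of_le (show Bm k m ≤ Gm k m from le_sup_right)
    apply Subgroup.map_injective (Gm k m).subtype_injective
    rw [Subgroup.map_sup, h1, h2, ← MonoidHom.range_eq_map, Subgroup.range_subtype]
    rfl
  have hamg : Amg A0 B0 K0 := by
    refine amg_of_alt A0 B0 K0 ?_ ?_ hgen ?_
    · exact fun x hx => hx.1
    · exact fun x hx => hx.2
    · intro h hh hA
      have h1 : Alt (A1 k) (Bm k m) (A1 k ⊓ Bm k m) ((Gm k m).subtype h) := by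
        refine alt_map (Gm k m).subtype ?_ ?_ ?_ ?_ h hh
        · exact fun a ha => ha
        · exact fun a ha => ha
        · exact fun a _ ha => ha
        · exact fun a _ ha => ha
      exact alt_not m _ h1 hA
  let f : Gm k m →* Zo (Fin 2) k ⧸ Zm (Fin 2) k (m + 1) :=
    (QuotientGroup.mk' (Zm (Fin 2) k (m + 1))).comp (Subgroup.inclusion (Gm_le m))
  have hone : ∀ (x : Gm k m), (∀ i, (x.1 (X i)).totalDegree ≤ m + 1) → f x = 1 → x = 1 := by
    intro x hx hfx
    have h1 : Subgroup.inclusion (Gm_le m) x ∈ Zm (Fin 2) k (m + 1) := by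
      rw [← QuotientGroup.eq_one_iff]
      exact hfx
    apply Subtype.ext
    apply au_ext
    intro i
    have h2 : x.1 (X i) - X i ∈ idealOfVars (Fin 2) k ^ (m + 1 + 1) := h1 i
    have h3 : x.1 (X i) - X i = 0 := by
      refine eq_zero_of (td_sub_le (hx i) ?_) h2
      rw [totalDegree_X]; omega
    exact sub_eq_zero.1 h3
  refine sub_amg hC hperm A0 B0 K0 hamg f ?_ ?_
    (((Zo (Fin 2) k).subtype.comp (bz φ)).comp
      ((Gm k m).comap ((Zo (Fin 2) k).subtype.comp (bz φ))).subtype |>.codRestrict (Gm k m)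
      (fun x => x.2)) ?_
    ((QuotientGroup.mk' (Zm (Fin 2) k (m + 1))).comp (bz φ)).range
    (jets_sub φ hC hsol hφ h m) ?_
  · intro a ha
    exact hone a fun i => (td_A1 ha.1 i).trans (by omega)
  · intro b hb
    exact hone b fun i => td_Bm hb i
  · intro x y hxy
    apply Subtype.ext
    apply bz_inj φ hφ
    apply Subtype.ext
    have h1 := congrArg Subtype.val hxy
    exact h1
  · intro h
    exact ⟨h.1, rfl⟩

/-- the group of automorphisms over the subring that fix the origin -/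
theorem main {C : ∀ (G : Type) [Group G], Prop} (hC : ClosedE C)
    (hsol : ∀ (S : Type) [Group S], Group.IsSolvable S → C S) [CharZero k] [IsAlgClosed k]
    {R : Type} [CommRing R] (φ : R →+* k) (hφ : Function.Injective φ) (h : C (G2 R)) :
    C (Zo (Fin 2) R) := by
  refine Pool.Agent.Y430.SS.t_union C hC.base (Zo (Fin 2) R)
    (fun m => (Gm k m).comap ((Zo (Fin 2) k).subtype.comp (bz φ)))
    (fun m n h => Subgroup.comap_mono (Gm_mono h))
    (fun g => cover ((bz φ g : Zo (Fin 2) k) : GA k) (bz φ g).2) ?_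
  intro m
  exact amal hC hsol φ hφ h m

end field

/-- **domains of characteristic zero** -/
theorem main_iff {C : ∀ (G : Type) [Group G], Prop} (hC : ClosedE C)
    (hsol : ∀ (S : Type) [Group S], Group.IsSolvable S → C S)
    {R : Type} [CommRing R] [IsDomain R] [CharZero R] : C (Zo (Fin 2) R) ↔ C (G2 R) := by
  constructor
  · intro h
    exact hC.base.of_injective _ _ linZ linZ_inj h
  · intro h
    have hinj : Function.Injective (algebraMap R (AlgebraicClosure (FractionRing R))) := by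
      rw [IsScalarTower.algebraMap_eq R (FractionRing R) (AlgebraicClosure (FractionRing R))]
      exact (algebraMap (FractionRing R) (AlgebraicClosure (FractionRing R))).injective.comp
        (IsFractionRing.injective R (FractionRing R))
    have hchar : CharZero (AlgebraicClosure (FractionRing R)) :=
      charZero_of_injective_algebraMap hinj
    exact main hC hsol (algebraMap R (AlgebraicClosure (FractionRing R))) hinj h

end Pool.Agent.N510.AP
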