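import Pool.Agent.N510.AP.Ord

/-!
# The groups of jets
-/

set_option autoImplicit false

open MvPolynomial

namespace Pool.Agent.N510.AP

open Pool.Agent.N77.PA (Au au_ext bc bc_X bc_map bc_injective)
open Pool.Agent.N77.GL (G2 mG ext_comm)
open Pool.Agent.Y110.FJ

variable {R : Type} [CommRing R]

/-- the linear part -/
noncomputable def Lm : Zo (Fin 2) R →* Matrix (Fin 2) (Fin 2) R where
  toFun g := Matrix.of fun k i => lam k ((g : Au (Fin 2) R) (X i))
  map_one' := by
    ext k i
    show lam k (X i) = _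
    rw [lam_X, Matrix.one_apply]
  map_mul' g h := by
    ext k i
    show lam k ((g : Au (Fin 2) R) ((h : Au (Fin 2) R) (X i))) = _
    rw [chain g.2, Matrix.mul_apply]
    rfl

/-- the linear part, an invertible matrix -/
noncomputable def Lu : Zo (Fin 2) R →* G2 R := (Lm (R := R)).toHomUnits

theorem Lu_one {g : Zo (Fin 2) R} : Lu g = 1 ↔ g ∈ Zm (Fin 2) R 1 := by
  constructor
  · intro h i
    have h1 : Lm g = 1 := congrArg Units.val h
    have h2 := taylor ((g : Au (Fin 2) R) (X i))
    have h3 : ∀ k, lam k ((g : Au (Fin 2) R) (X i)) = (1 : Matrix (Fin 2) (Fin 2) R) k i := by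
      intro k
      rw [← h1]; rfl
    have h4 : ∑ j, C (lam j ((g : Au (Fin 2) R) (X i))) * X j = (X i : MvPolynomial (Fin 2) R) := by
      rw [Finset.sum_eq_single i]
      · rw [h3, Matrix.one_apply_eq, C_1, one_mul]
      · intro j _ hj
        rw [h3, Matrix.one_apply_ne hj, C_0, zero_mul]
      · intro h
        exact absurd (Finset.mem_univ i) h
    have h5 : constantCoeff ((g : Au (Fin 2) R) (X i)) = 0 := by
      rw [g.2, constantCoeff_X]
    rw [h4, h5, C_0, sub_zero] at h2
    exact h2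
  · intro h
    apply Units.ext
    show Lm g = 1
    ext k i
    show lam k ((g : Au (Fin 2) R) (X i)) = _
    have h1 : (g : Au (Fin 2) R) (X i) = X i + ((g : Au (Fin 2) R) (X i) - X i) := by ring
    have h2 : ∀ f ∈ idealOfVars (Fin 2) R ^ 2, lam k f = 0 := by
      intro f hf
      rw [pow_two] at hf
      induction hf using Submodule.mul_induction_on' with
      | mem_mul_mem a ha b hb =>
        rw [lam_mul, mem_I.1 ha, mem_I.1 hb, zero_mul, zero_mul, add_zero]
      | add p _ q _ hp hq => rw [lam_add, hp, hq, add_zero]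
    rw [h1, lam_add, h2 _ (h i), add_zero, lam_X, Matrix.one_apply]

variable {C : ∀ (G : Type) [Group G], Prop}

/-- the quotients are in the class -/
theorem jets (hC : ClosedE C) (hsol : ∀ (S : Type) [Group S], Group.IsSolvable S → C S)
    (h : C (G2 R)) (m : ℕ) : C (Zo (Fin 2) R ⧸ Zm (Fin 2) R (m + 1)) := by
  induction m with
  | zero =>
    have h1 : ∀ x ∈ Zm (Fin 2) R (0 + 1), Lu x = 1 := fun x hx => Lu_one.2 hx
    refine ext_comm hC hsol (QuotientGroup.lift (Zm (Fin 2) R (0 + 1)) Lu h1) ?_ h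
    intro x y hx hy
    obtain ⟨x, rfl⟩ := QuotientGroup.mk_surjective x
    obtain ⟨y, rfl⟩ := QuotientGroup.mk_surjective y
    have hx' : Lu x = 1 := hx
    have hx'' : ((x : Zo (Fin 2) R) : Zo (Fin 2) R ⧸ Zm (Fin 2) R (0 + 1)) = 1 := by
      rw [QuotientGroup.eq_one_iff]
      exact Lu_one.1 hx'
    rw [hx'', one_mul, mul_one]
  | succ m ih =>
    have hle : Zm (Fin 2) R (m + 1 + 1) ≤ Subgroup.comap (MonoidHom.id _) (Zm (Fin 2) R (m + 1)) :=
      Zm_mono (Nat.le_succ _)
    refine ext_comm hC hsol (QuotientGroup.map (Zm (Fin 2) R (m + 1 + 1)) (Zm (Fin 2) R (m + 1))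
      (MonoidHom.id _) hle) ?_ ih
    intro x y hx hy
    obtain ⟨x, rfl⟩ := QuotientGroup.mk_surjective x
    obtain ⟨y, rfl⟩ := QuotientGroup.mk_surjective y
    rw [QuotientGroup.map_mk, QuotientGroup.eq_one_iff] at hx hy
    rw [← QuotientGroup.mk_mul, ← QuotientGroup.mk_mul]
    symm
    rw [QuotientGroup.eq]
    exact comm_mem (by omega) hx hy

section sub

variable {k : Type} [CommRing k] (φ : R →+* k)

/-- base change -/
noncomputable def bz : Zo (Fin 2) R →* Zo (Fin 2) k :=
  ((bc φ).comp (Zo (Fin 2) R).subtype).codRestrict (Zo (Fin 2) k) (by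
    intro g
    apply mem_Zo_of_X
    intro i
    show constantCoeff (bc φ g.1 (X i)) = 0
    rw [bc_X, constantCoeff_map, g.2, constantCoeff_X, map_zero])

theorem bz_X (g : Zo (Fin 2) R) (i : Fin 2) :
    ((bz φ g : Zo (Fin 2) k) : Au (Fin 2) k) (X i) = map φ ((g : Au (Fin 2) R) (X i)) :=
  bc_X φ g.1 i

theorem bz_inj (hφ : Function.Injective φ) : Function.Injective (bz φ) := by
  intro g h e
  apply Subtype.ext
  apply bc_injective φ hφ
  exact congrArg Subtype.val e

theorem bz_Zm (hφ : Function.Injective φ) (m : ℕ) (g : Zo (Fin 2) R) :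
    bz φ g ∈ Zm (Fin 2) k m ↔ g ∈ Zm (Fin 2) R m := by
  have key : ∀ (n : ℕ) (f : MvPolynomial (Fin 2) R),
      map φ f ∈ idealOfVars (Fin 2) k ^ n ↔ f ∈ idealOfVars (Fin 2) R ^ n := by
    intro n f
    rw [mem_pow_idealOfVars_iff', mem_pow_idealOfVars_iff']
    refine forall_congr' fun x => imp_congr_right fun _ => ?_
    rw [coeff_map]
    constructor
    · intro h
      exact hφ (by rw [h, map_zero])
    · intro h
      rw [h, map_zero]
  rw [mem_Zm, mem_Zm]
  refine forall_congr' fun i => ?_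
  rw [bz_X, ← key, map_sub, map_X]

/-- the image of the group over the subring in the group of jets -/
theorem jets_sub (hC : ClosedE C) (hsol : ∀ (S : Type) [Group S], Group.IsSolvable S → C S)
    (hφ : Function.Injective φ) (h : C (G2 R)) (m : ℕ) :
    C (((QuotientGroup.mk' (Zm (Fin 2) k (m + 1))).comp (bz φ)).range) := by
  let q := (QuotientGroup.mk' (Zm (Fin 2) k (m + 1))).comp (bz φ)
  have hker : ∀ x, q x = 1 ↔ x ∈ Zm (Fin 2) R (m + 1) := by
    intro x
    show (QuotientGroup.mk' (Zm (Fin 2) k (m + 1))) (bz φ x) = 1 ↔ _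
    rw [QuotientGroup.mk'_apply, QuotientGroup.eq_one_iff, bz_Zm φ hφ]
  let f : (Zo (Fin 2) R ⧸ Zm (Fin 2) R (m + 1)) →* q.range :=
    QuotientGroup.lift _ q.rangeRestrict (fun x hx => Subtype.ext ((hker x).2 hx))
  have hf : Function.Bijective f := by
    constructor
    · rw [injective_iff_map_eq_one]
      intro x hx
      obtain ⟨x, rfl⟩ := QuotientGroup.mk_surjective x
      rw [QuotientGroup.eq_one_iff]
      exact (hker x).1 (congrArg Subtype.val hx)
    · rintro ⟨_, x, rfl⟩
      exact ⟨(x : Zo (Fin 2) R ⧸ Zm (Fin 2) R (m + 1)), rfl⟩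
  exact hC.base.of_injective _ _ (MulEquiv.ofBijective f hf).symm.toMonoidHom
    (MulEquiv.ofBijective f hf).symm.injective (jets hC hsol h m)

end sub

section linear

/-- linear endomorphisms -/
noncomputable def linH : Matrix (Fin 2) (Fin 2) R →*
    (MvPolynomial (Fin 2) R →ₐ[R] MvPolynomial (Fin 2) R) where
  toFun M := aeval fun i => ∑ j, MvPolynomial.C (M j i) * X j
  map_one' := by
    apply MvPolynomial.algHom_ext
    intro i
    rw [aeval_X, AlgHom.one_apply, Finset.sum_eq_single i]
    · rw [Matrix.one_apply_eq, C_1, one_mul]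
    · intro j _ hj
      rw [Matrix.one_apply_ne hj, C_0, zero_mul]
    · intro h
      exact absurd (Finset.mem_univ i) h
  map_mul' M N := by
    apply MvPolynomial.algHom_ext
    intro i
    rw [aeval_X, AlgHom.mul_apply, aeval_X, map_sum]
    have h1 : ∀ j, (aeval fun i => ∑ j, MvPolynomial.C (M j i) * X j :
        MvPolynomial (Fin 2) R →ₐ[R] MvPolynomial (Fin 2) R) (MvPolynomial.C (N j i) * X j) =
        ∑ l, MvPolynomial.C (M l j * N j i) * X l := by
      intro j
      rw [map_mul, aeval_X, algHom_C, algebraMap_eq, Finset.mul_sum]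
      refine Finset.sum_congr rfl fun l _ => ?_
      rw [C_mul]; ring
    rw [Finset.sum_congr rfl fun j _ => h1 j, Finset.sum_comm]
    refine Finset.sum_congr rfl fun l _ => ?_
    rw [Matrix.mul_apply, map_sum, Finset.sum_mul]

/-- linear automorphisms -/
noncomputable def linA : G2 R →* Au (Fin 2) R :=
  (AlgEquiv.algHomUnitsEquiv R (MvPolynomial (Fin 2) R)).toMonoidHom.comp (Units.map (linH (R := R)))

theorem linA_X (M : G2 R) (i : Fin 2) : linA M (X i) = ∑ j, MvPolynomial.C (M.1 j i) * X j := by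
  show (aeval fun i => ∑ j, MvPolynomial.C (M.1 j i) * X j :
    MvPolynomial (Fin 2) R →ₐ[R] MvPolynomial (Fin 2) R) (X i) = _
  rw [aeval_X]

/-- linear automorphisms -/
noncomputable def linZ : G2 R →* Zo (Fin 2) R :=
  (linA (R := R)).codRestrict (Zo (Fin 2) R) (by
    intro M
    apply mem_Zo_of_X
    intro i
    rw [linA_X, map_sum]
    apply Finset.sum_eq_zero
    intro j _
    rw [map_mul, constantCoeff_X, mul_zero])

theorem linZ_inj : Function.Injective (linZ (R := R)) := by
  intro M N h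
  apply Units.ext
  ext k i
  have h1 : linA M = linA N := congrArg Subtype.val h
  have h2 : ∀ M : G2 R, lam k (linA M (X i)) = M.1 k i := by
    intro M
    have h3 : ∀ (s : Finset (Fin 2)), lam k (∑ j ∈ s, MvPolynomial.C (M.1 j i) * X j) =
        ∑ j ∈ s, lam k (MvPolynomial.C (M.1 j i) * X j) := by
      intro s
      unfold lam
      rw [map_sum, map_sum]
    rw [linA_X, h3, Finset.sum_eq_single k]
    · rw [lam_mul, lam_X, if_pos rfl, lam_C, mul_zero, add_zero, mul_one, constantCoeff_C]
    · intro j _ hj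
      rw [lam_mul, lam_X, if_neg (Ne.symm hj), lam_C, mul_zero, mul_zero, add_zero]
    · intro h
      exact absurd (Finset.mem_univ k) h
  rw [← h2 M, ← h2 N, h1]

end linear

end Pool.Agent.N510.AP
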