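import Pool.Agent.N77.PA.BC
import Pool.Agent.N77.GL.Sq
import Mathlib.RingTheory.MvPolynomial.Ideal

/-!
# Automorphisms of polynomial rings which fix the origin, and their jets
-/

set_option autoImplicit false

open MvPolynomial

namespace Pool.Agent.N510.AP

open Pool.Agent.N77.PA (Au au_ext bc bc_X bc_map bc_injective)
open Pool.Agent.N77.GL (G2 mG ext_comm)
open Pool.Agent.Y110.FJ

section general

variable {σ R : Type*} [CommRing R]

/-- the group of the automorphisms of the polynomial ring which fix the origin -/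
def Zo (σ R : Type*) [CommRing R] : Subgroup (Au σ R) where
  carrier := {g | ∀ f, constantCoeff (g f) = constantCoeff f}
  mul_mem' := fun {a b} ha hb f => by
    show constantCoeff (a (b f)) = _
    rw [ha, hb]
  one_mem' := fun f => rfl
  inv_mem' := fun {a} ha f => by
    have h : a (a⁻¹ f) = f := a.apply_symm_apply f
    rw [← ha (a⁻¹ f), h]

theorem mem_Zo_of_X {g : Au σ R} (h : ∀ i, constantCoeff (g (X i)) = 0) : g ∈ Zo σ R := by
  intro f
  induction f using MvPolynomial.induction_on with
  | C r =>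
    have h1 : g (C r) = C r := g.commutes r
    rw [h1]
  | add p q hp hq => rw [map_add, map_add, map_add, hp, hq]
  | mul_X p i hp => rw [map_mul, map_mul, map_mul, h, constantCoeff_X, mul_zero, mul_zero]

theorem mem_I {f : MvPolynomial σ R} : f ∈ idealOfVars σ R ↔ constantCoeff f = 0 := by
  have h := mem_pow_idealOfVars_iff' 1 f
  rw [pow_one] at h
  rw [h, constantCoeff_eq]
  constructor
  · intro h1
    exact h1 0 (by simp)
  · intro h1 x hx
    have h2 : x = 0 := by
      rw [← Finsupp.degree_eq_zero_iff]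
      omega
    rw [h2, h1]

theorem X_mem_I (i : σ) : (X i : MvPolynomial σ R) ∈ idealOfVars σ R :=
  Ideal.subset_span ⟨i, rfl⟩

theorem map_pow_I {g : Au σ R} (hg : g ∈ Zo σ R) (n : ℕ) {f : MvPolynomial σ R}
    (hf : f ∈ idealOfVars σ R ^ n) : g f ∈ idealOfVars σ R ^ n := by
  have h1 : Ideal.map (g : MvPolynomial σ R →+* MvPolynomial σ R) (idealOfVars σ R) ≤
      idealOfVars σ R := by
    rw [Ideal.map_le_iff_le_comap]
    intro f hf
    rw [Ideal.mem_comap, mem_I]
    rw [mem_I] at hf
    rw [← hf]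
    exact hg f
  have h2 := Ideal.mem_map_of_mem (g : MvPolynomial σ R →+* MvPolynomial σ R) hf
  rw [Ideal.map_pow] at h2
  exact Ideal.pow_right_mono h1 n h2

theorem map_I {g : Au σ R} (hg : g ∈ Zo σ R) {f : MvPolynomial σ R}
    (hf : f ∈ idealOfVars σ R) : g f ∈ idealOfVars σ R := by
  have := map_pow_I hg 1 (f := f)
  rw [pow_one] at this
  exact this hf

theorem cong0 {g : Au σ R} {m : ℕ} (hD : ∀ i, g (X i) - X i ∈ idealOfVars σ R ^ (m + 1))
    (f : MvPolynomial σ R) : g f - f ∈ idealOfVars σ R ^ m := by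
  induction f using MvPolynomial.induction_on with
  | C r =>
    have h1 : g (C r) = C r := g.commutes r
    rw [h1, sub_self]
    exact zero_mem _
  | add p q hp hq =>
    have : g (p + q) - (p + q) = (g p - p) + (g q - q) := by rw [map_add]; ring
    rw [this]
    exact add_mem hp hq
  | mul_X p i hp =>
    have : g (p * X i) - p * X i = g (X i) * (g p - p) + p * (g (X i) - X i) := by
      rw [map_mul]; ring
    rw [this]
    exact add_mem (Ideal.mul_mem_left _ _ hp)
      (Ideal.mul_mem_left _ _ (Ideal.pow_le_pow_right (Nat.le_succ m) (hD i)))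

theorem cong1 {g : Au σ R} (hg : g ∈ Zo σ R) {m : ℕ}
    (hD : ∀ i, g (X i) - X i ∈ idealOfVars σ R ^ (m + 1))
    {f : MvPolynomial σ R} (hf : f ∈ idealOfVars σ R) : g f - f ∈ idealOfVars σ R ^ (m + 1) := by
  induction hf using Submodule.span_induction with
  | mem x hx =>
    obtain ⟨i, rfl⟩ := hx
    exact hD i
  | zero => rw [map_zero, sub_self]; exact zero_mem _
  | add p q _ _ hp hq =>
    have : g (p + q) - (p + q) = (g p - p) + (g q - q) := by rw [map_add]; ring
    rw [this]
    exact add_mem hp hq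
  | smul a x hx hx' =>
    have hx1 : x ∈ idealOfVars σ R := hx
    have : g (a • x) - a • x = (g a - a) * g x + a * (g x - x) := by
      rw [smul_eq_mul, map_mul]; ring
    rw [this, pow_succ]
    rw [pow_succ] at hx'
    exact add_mem (Ideal.mul_mem_mul (cong0 hD a) (map_I hg hx1)) (Ideal.mul_mem_left _ _ hx')

theorem congn {g : Au σ R} (hg : g ∈ Zo σ R) {m : ℕ}
    (hD : ∀ i, g (X i) - X i ∈ idealOfVars σ R ^ (m + 1)) (n : ℕ) :
    ∀ f ∈ idealOfVars σ R ^ n, g f - f ∈ idealOfVars σ R ^ (n + m) := by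
  induction n with
  | zero =>
    intro f _
    rw [zero_add]
    exact cong0 hD f
  | succ n ih =>
    intro f hf
    rw [pow_succ] at hf
    induction hf using Submodule.mul_induction_on' with
    | mem_mul_mem a ha b hb =>
      have : g (a * b) - a * b = (g a - a) * g b + a * (g b - b) := by
        rw [map_mul]; ring
      rw [this]
      refine add_mem ?_ ?_
      · have h1 := Ideal.mul_mem_mul (ih a ha) (map_I hg hb)
        rw [← pow_succ] at h1
        have h2 : n + m + 1 = n + 1 + m := by ring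
        rwa [h2] at h1
      · have h1 := Ideal.mul_mem_mul ha (cong1 hg hD hb)
        rw [← pow_add] at h1
        have h2 : n + (m + 1) = n + 1 + m := by ring
        rwa [h2] at h1
    | add p _ q _ hp hq =>
      have : g (p + q) - (p + q) = (g p - p) + (g q - q) := by rw [map_add]; ring
      rw [this]
      exact add_mem hp hq

/-- the automorphisms which are trivial up to the order `m` -/
def Zm (σ R : Type*) [CommRing R] (m : ℕ) : Subgroup (Zo σ R) where
  carrier := {g | ∀ i, (g : Au σ R) (X i) - X i ∈ idealOfVars σ R ^ (m + 1)}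
  mul_mem' := fun {a b} ha hb i => by
    have h1 : ((a * b : Zo σ R) : Au σ R) (X i) = (a : Au σ R) ((b : Au σ R) (X i)) := rfl
    have h2 : (a : Au σ R) ((b : Au σ R) (X i)) - X i =
        (a : Au σ R) ((b : Au σ R) (X i) - X i) + ((a : Au σ R) (X i) - X i) := by
      rw [map_sub]; ring
    rw [h1, h2]
    exact add_mem (map_pow_I a.2 _ (hb i)) (ha i)
  one_mem' := fun i => by
    have h1 : ((1 : Zo σ R) : Au σ R) (X i) = X i := rfl
    rw [h1, sub_self]
    exact zero_mem _
  inv_mem' := fun {a} ha i => by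
    have h1 : ((a⁻¹ : Zo σ R) : Au σ R) ((a : Au σ R) (X i)) = X i :=
      (a : Au σ R).symm_apply_apply _
    have h2 := map_pow_I (a⁻¹).2 _ (ha i)
    rw [map_sub, h1, ← neg_mem_iff, neg_sub] at h2
    exact h2

theorem mem_Zm {m : ℕ} {g : Zo σ R} :
    g ∈ Zm σ R m ↔ ∀ i, (g : Au σ R) (X i) - X i ∈ idealOfVars σ R ^ (m + 1) := Iff.rfl

instance (m : ℕ) : (Zm σ R m).Normal := ⟨by
  intro n hn g i
  have h1 : ((g * n * g⁻¹ : Zo σ R) : Au σ R) (X i) =
    (g : Au σ R) ((n : Au σ R) (((g⁻¹ : Zo σ R) : Au σ R) (X i))) := rfl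
  have h2 : (g : Au σ R) (((g⁻¹ : Zo σ R) : Au σ R) (X i)) = X i :=
    (g : Au σ R).apply_symm_apply _
  have h3 := cong1 n.2 hn (map_I (g⁻¹).2 (X_mem_I (R := R) i))
  have h4 := map_pow_I g.2 _ h3
  rw [map_sub, h2] at h4
  rw [h1]
  exact h4⟩

theorem Zm_mono {m n : ℕ} (h : m ≤ n) : Zm σ R n ≤ Zm σ R m := fun _ hg i =>
  Ideal.pow_le_pow_right (by omega) (hg i)

/-- commutators of automorphisms that are trivial up to order `m ≥ 1` -/
theorem comm_mem {m : ℕ} (hm : 1 ≤ m) {g h : Zo σ R} (hg : g ∈ Zm σ R m) (hh : h ∈ Zm σ R m) :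
    (h * g)⁻¹ * (g * h) ∈ Zm σ R (m + 1) := by
  intro i
  have e0 : (((h * g)⁻¹ * (g * h) : Zo σ R) : Au σ R) (X i) =
      (((h * g)⁻¹ : Zo σ R) : Au σ R) ((g : Au σ R) ((h : Au σ R) (X i))) := rfl
  have e1 : (((h * g)⁻¹ : Zo σ R) : Au σ R) ((h : Au σ R) ((g : Au σ R) (X i))) = X i :=
    ((h * g : Zo σ R) : Au σ R).symm_apply_apply _
  have h1 : (g : Au σ R) ((h : Au σ R) (X i)) - (h : Au σ R) ((g : Au σ R) (X i)) ∈
      idealOfVars σ R ^ (m + 1 + 1) := by
    have hu := congn g.2 hg (m + 1) _ (hh i)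
    have hv := congn h.2 hh (m + 1) _ (hg i)
    have hle : idealOfVars σ R ^ (m + 1 + m) ≤ idealOfVars σ R ^ (m + 1 + 1) :=
      Ideal.pow_le_pow_right (by omega)
    have e2 : (g : Au σ R) ((h : Au σ R) (X i)) - (h : Au σ R) ((g : Au σ R) (X i)) =
        ((g : Au σ R) ((h : Au σ R) (X i) - X i) - ((h : Au σ R) (X i) - X i)) -
        ((h : Au σ R) ((g : Au σ R) (X i) - X i) - ((g : Au σ R) (X i) - X i)) := by
      rw [map_sub, map_sub]; ring
    rw [e2]
    exact sub_mem (hle hu) (hle hv)
  have h2 := map_pow_I ((h * g)⁻¹).2 _ h1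
  rw [map_sub, e1] at h2
  rw [e0]
  exact h2

/-- the linear terms -/
noncomputable def lam (j : σ) (f : MvPolynomial σ R) : R := constantCoeff (pderiv j f)

theorem lam_mul (j : σ) (f g : MvPolynomial σ R) :
    lam j (f * g) = constantCoeff f * lam j g + constantCoeff g * lam j f := by
  unfold lam
  rw [Derivation.leibniz, map_add, smul_eq_mul, smul_eq_mul, map_mul, map_mul]

theorem lam_add (j : σ) (f g : MvPolynomial σ R) : lam j (f + g) = lam j f + lam j g := by
  unfold lam
  rw [map_add, map_add]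

theorem lam_C (j : σ) (r : R) : lam j (C r : MvPolynomial σ R) = 0 := by
  unfold lam
  rw [pderiv_C, map_zero]

theorem lam_X [DecidableEq σ] (j i : σ) : lam j (X i : MvPolynomial σ R) = if j = i then 1 else 0 := by
  unfold lam
  rw [pderiv_X, Pi.single_apply]
  by_cases h : i = j
  · rw [if_pos h, if_pos h.symm, map_one]
  · rw [if_neg h, if_neg (Ne.symm h), map_zero]

theorem lam_sub (j : σ) (f g : MvPolynomial σ R) : lam j (f - g) = lam j f - lam j g := by
  unfold lam
  rw [map_sub, map_sub]

/-- the chain rule at the origin -/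
theorem chain [Fintype σ] [DecidableEq σ] {g : Au σ R} (hg : g ∈ Zo σ R) (k : σ)
    (f : MvPolynomial σ R) : lam k (g f) = ∑ j, lam k (g (X j)) * lam j f := by
  induction f using MvPolynomial.induction_on with
  | C r =>
    have h1 : g (C r) = C r := g.commutes r
    rw [h1, lam_C]
    symm
    apply Finset.sum_eq_zero
    intro j _
    rw [lam_C, mul_zero]
  | add p q hp hq =>
    rw [map_add, lam_add, hp, hq, ← Finset.sum_add_distrib]
    refine Finset.sum_congr rfl fun j _ => ?_
    rw [lam_add, mul_add]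
  | mul_X p i hp =>
    have h1 : constantCoeff (g (X i)) = 0 := by rw [hg, constantCoeff_X]
    rw [map_mul, lam_mul, h1, zero_mul, add_zero, hg p]
    rw [Finset.sum_eq_single i]
    · rw [lam_mul, lam_X, if_pos rfl, constantCoeff_X, zero_mul, add_zero, mul_one, mul_comm]
    · intro j _ hj
      rw [lam_mul, lam_X, if_neg hj, constantCoeff_X, zero_mul, add_zero, mul_zero, mul_zero]
    · intro h
      exact absurd (Finset.mem_univ i) h

/-- the expansion up to the second order -/
theorem taylor [Fintype σ] [DecidableEq σ] (f : MvPolynomial σ R) :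
    f - C (constantCoeff f) - ∑ j, C (lam j f) * X j ∈ idealOfVars σ R ^ 2 := by
  induction f using MvPolynomial.induction_on with
  | C r =>
    rw [constantCoeff_C, sub_self, zero_sub, neg_mem_iff]
    rw [Finset.sum_eq_zero]
    · exact zero_mem _
    · intro j _
      rw [lam_C, C_0, zero_mul]
  | add p q hp hq =>
    have : p + q - C (constantCoeff (p + q)) - ∑ j, C (lam j (p + q)) * X j =
        (p - C (constantCoeff p) - ∑ j, C (lam j p) * X j) +
        (q - C (constantCoeff q) - ∑ j, C (lam j q) * X j) := by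
      have h1 : ∑ j, C (lam j (p + q)) * X j =
          ∑ j, C (lam j p) * X j + ∑ j, (C (lam j q) * X j : MvPolynomial σ R) := by
        rw [← Finset.sum_add_distrib]
        refine Finset.sum_congr rfl fun j _ => ?_
        rw [lam_add, C_add, add_mul]
      rw [h1, map_add, C_add]
      ring
    rw [this]
    exact add_mem hp hq
  | mul_X p i hp =>
    have h1 : ∑ j, C (lam j (p * X i)) * X j = (C (constantCoeff p) * X i : MvPolynomial σ R) := by
      rw [Finset.sum_eq_single i]
      · rw [lam_mul, lam_X, if_pos rfl, constantCoeff_X, zero_mul, add_zero, mul_one]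
      · intro j _ hj
        rw [lam_mul, lam_X, if_neg hj, constantCoeff_X, zero_mul, add_zero, mul_zero, C_0, zero_mul]
      · intro h
        exact absurd (Finset.mem_univ i) h
    rw [h1, map_mul, constantCoeff_X, mul_zero, C_0, sub_zero, ← sub_mul, pow_two]
    refine Ideal.mul_mem_mul ?_ (X_mem_I i)
    rw [mem_I, map_sub, constantCoeff_C, sub_self]

end general

end Pool.Agent.N510.AP
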